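import Pool.Agent.helper43.BMH.Spec

set_option autoImplicit false

namespace Pool.Agent.helper43.BMH

open scoped ENNReal
open Pool.Agent.helper75.BM (nrm N2 L dBM)

theorem STP_avg_nonneg {Ω ι : Type} [Fintype Ω] [Fintype ι] (F : Ω → Matrix ι ι ℝ) (lam D : ℝ)
    (z : ι → ℤ) : 0 ≤ avgN F lam D z := by
  unfold avgN
  positivity

theorem STP_avg_le {Ω ι : Type} [Fintype Ω] [Nonempty Ω] [Fintype ι] [DecidableEq ι]
    (T : Ω → Ω → Matrix ι ι ℝ) (lam D : ℝ) (z : ι → ℤ) (e : ℝ)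
    (h : ∀ w₁ w₂, ∑ P : SP ι, (cnt (rowAct P (T w₁ w₂)) lam D z : ℝ) ≤ (Fintype.card (SP ι) : ℝ) * e) :
    avgN (fun w : SP ι × Ω × Ω => rowAct w.1 (T w.2.1 w.2.2)) lam D z ≤ e := by
  unfold avgN
  have h1 : (0 : ℝ) < (Fintype.card (SP ι × Ω × Ω) : ℝ) := by
    exact_mod_cast Fintype.card_pos
  rw [div_le_iff₀ h1, Fintype.sum_prod_type, Finset.sum_comm]
  have h2 : (Fintype.card (SP ι × Ω × Ω) : ℝ) =
      (Fintype.card (SP ι) : ℝ) * ((Fintype.card Ω : ℝ) * (Fintype.card Ω : ℝ)) := by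
    have a1 : Fintype.card (SP ι × Ω × Ω) = Fintype.card (SP ι) * Fintype.card (Ω × Ω) :=
      Fintype.card_prod _ _
    have a2 : Fintype.card (Ω × Ω) = Fintype.card Ω * Fintype.card Ω := Fintype.card_prod _ _
    rw [a1, a2]
    push_cast
    ring
  calc ∑ y : Ω × Ω, ∑ x : SP ι, (cnt (rowAct (x, y).1 (T (x, y).2.1 (x, y).2.2)) lam D z : ℝ) ≤
      ∑ _y : Ω × Ω, (Fintype.card (SP ι) : ℝ) * e := Finset.sum_le_sum fun y _ => h y.1 y.2
    _ = e * (Fintype.card (SP ι × Ω × Ω) : ℝ) := by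
        rw [h2, Finset.sum_const, Finset.card_univ, Fintype.card_prod, nsmul_eq_mul]
        push_cast
        ring

theorem t_stp (he : EXH) (hl : POL) (hr : ROW) (hd : DBL) (hs : SPA) (hf : FAM) (hu : STU) : STP := by
  obtain ⟨κ, hκ, hκ1, hSPA⟩ := hs (1 / 25) (by norm_num)
  refine ⟨κ ^ 2 / 40960, by positivity, ?_⟩
  intro s β hG lam hlam B η hη
  have h2 : (0 : ℝ) < Real.sqrt 2 := Real.sqrt_pos.mpr (by norm_num)
  obtain ⟨δ₁, hδ₁, k₁, hG1⟩ := hG (lam / Real.sqrt 2) (by positivity) (2 * B) (η / 4) (by positivity)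
  obtain ⟨δ₂, hδ₂, n₂, hS⟩ := hSPA lam hlam B (1 / 200) (by norm_num)
  obtain ⟨n₃, hP⟩ := hl (B + 1) ((2 * B + 1) ^ 2) η hη
  refine ⟨min (δ₁ / 2) δ₂, lt_min (by positivity) hδ₂, k₁ + n₂ + n₃ + 1, ?_⟩
  intro k hk hK
  obtain ⟨ι, _, _, Ω, _, _, F, hcard, hF, hbound⟩ := hG1 k (by omega) hK
  have hkn : k ≤ Fintype.card ι := by
    rw [hcard]
    exact Nat.le_mul_of_pos_left k (by positivity)
  have hne : Nonempty ι := Fintype.card_pos_iff.mp (by omega)
  have hcard2 : Fintype.card (ι ⊕ ι) = 2 * Fintype.card ι := by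
    rw [Fintype.card_sum]
    ring
  have hcr : (Fintype.card (ι ⊕ ι) : ℝ) = 2 * (Fintype.card ι : ℝ) := by
    rw [hcard2]
    push_cast
    ring
  have hn0 : (0 : ℝ) < (Fintype.card ι : ℝ) := by
    exact_mod_cast Fintype.card_pos
  refine ⟨ι ⊕ ι, inferInstance, inferInstance, SP (ι ⊕ ι) × Ω × Ω, inferInstance, inferInstance,
    fun w => rowAct w.1 (dbl (F w.2.1) (F w.2.2)), ?_, ?_, ?_⟩
  · rw [hcard2, hcard]
    ring
  · intro w
    exact (hr _ _ w.1).1 ((hd ι (F w.2.1) (F w.2.2)).1 (hF _) (hF _))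
  · intro D hD z hz
    rw [hcr] at hD
    rw [hcr]
    set n : ℝ := (Fintype.card ι : ℝ) with hn
    have hent : 0 ≤ ent z := (he (ι ⊕ ι) ℤ z).2.1
    by_cases hsp : (spt z : ℝ) ≤ κ * (2 * n)
    · have h3 : avgN (fun w : SP (ι ⊕ ι) × Ω × Ω => rowAct w.1 (dbl (F w.2.1) (F w.2.2))) lam D z ≤
          Real.exp (-(2 * n) * (ent z - 1 / 25 - 1 / 200)) := by
        refine STP_avg_le (fun w₁ w₂ => dbl (F w₁) (F w₂)) lam D z _ ?_
        intro w₁ w₂
        have h4 := hS (ι ⊕ ι) (dbl (F w₁) (F w₂)) ((hd ι (F w₁) (F w₂)).1 (hF _) (hF _))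
          (by rw [hcard2]; omega) D (by
            rw [hcr]
            exact hD.trans (mul_le_mul_of_nonneg_right (min_le_right _ _) (by positivity))) z hz
          (by rw [hcr]; exact hsp)
        rw [hcr] at h4
        exact h4
      refine h3.trans (Real.exp_le_exp.mpr ?_)
      have h5 : 9 / 200 ≤ max (β - κ ^ 2 / 40960) (9 / 200) := le_max_right _ _
      have h6 : 9 / 10 * ent z - max (β - κ ^ 2 / 40960) (9 / 200) - η ≤ ent z - 1 / 25 - 1 / 200 := by
        linarith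
      have h7 := mul_le_mul_of_nonneg_left h6 (by positivity : (0 : ℝ) ≤ 2 * n)
      linarith
    · push Not at hsp
      have h3 := hf Ω ι F lam D z
      have h4 := hu ι B z (avgN F (lam / Real.sqrt 2) D) κ β (η / 4) hκ hz hsp.le
        (fun v => STP_avg_nonneg F _ D v) (by
          intro v hv
          refine hbound D ?_ v ?_
          · have h5 : D ≤ δ₁ / 2 * (2 * n) :=
              hD.trans (mul_le_mul_of_nonneg_right (min_le_left _ _) (by positivity))
            linarith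
          · intro i
            have := hv i
            push_cast
            exact this)
      have hSP : (0 : ℝ) < (Fintype.card (SP (ι ⊕ ι)) : ℝ) := by
        exact_mod_cast Fintype.card_pos
      have h5 := hP (Fintype.card ι) (by omega)
      rw [← hn] at h4 h5
      refine h3.trans ?_
      rw [div_le_iff₀ hSP]
      refine h4.trans ?_
      have h6 : (Real.exp 1 * (2 * n)) ^ (B + 1) * (2 * n + 1) ^ ((2 * B + 1) ^ 2) *
          Real.exp (-(2 * n) * (9 / 10 * ent z + κ ^ 2 / 40960 - β - η / 4)) ≤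
          Real.exp (-(2 * n) * (9 / 10 * ent z - max (β - κ ^ 2 / 40960) (9 / 200) - η)) := by
        refine (mul_le_mul_of_nonneg_right h5 (Real.exp_pos _).le).trans ?_
        rw [← Real.exp_add]
        refine Real.exp_le_exp.mpr ?_
        have h7 : β - κ ^ 2 / 40960 ≤ max (β - κ ^ 2 / 40960) (9 / 200) := le_max_left _ _
        have h8 := mul_le_mul_of_nonneg_left h7 (by positivity : (0 : ℝ) ≤ 2 * n)
        have h9 : 0 < η * n := mul_pos hη hn0
        nlinarith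
      calc (Fintype.card (SP (ι ⊕ ι)) : ℝ) *
            ((Real.exp 1 * (2 * n)) ^ (B + 1) * (2 * n + 1) ^ ((2 * B + 1) ^ 2)) *
            Real.exp (-(2 * n) * (9 / 10 * ent z + κ ^ 2 / 40960 - β - η / 4)) =
          ((Real.exp 1 * (2 * n)) ^ (B + 1) * (2 * n + 1) ^ ((2 * B + 1) ^ 2) *
            Real.exp (-(2 * n) * (9 / 10 * ent z + κ ^ 2 / 40960 - β - η / 4))) *
            (Fintype.card (SP (ι ⊕ ι)) : ℝ) := by ring
        _ ≤ _ := mul_le_mul_of_nonneg_right h6 hSP.le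

end Pool.Agent.helper43.BMH
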